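import Pool.Agent.PDN.Stmts

/-!
# PDN: bound of the signed sum
-/

set_option autoImplicit false

namespace Pool.Agent.PDN.H69

open Classical in
/-- local bound at a vertex of degree four -/
theorem local_bound (lnk : LnkStmt) (oct : OctStmt) {V : Type} [Fintype V] (T : Tri V) (s : V → ℤ)
    (hs : T.Sgn s) (t : V) (ht : T.deg t = 4) :
    |∑ v, (if T.Adj t v ∧ T.deg v ≠ 4 then s v else 0)| ≤
      if ∃ u w, T.deg u ≠ 4 ∧ T.deg w ≠ 4 ∧ T.f t u w then 2 else 0 := by
  have hne : ∃ n₁, T.Adj t n₁ := by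
    by_contra hcon
    push Not at hcon
    have : IsEmpty {v : V // T.Adj t v} := ⟨fun x => hcon x.1 x.2⟩
    have h0 : T.deg t = 0 := by
      unfold Tri.deg
      exact Nat.card_of_isEmpty
    omega
  obtain ⟨n₁, hn₁⟩ := hne
  obtain ⟨n₂, n₃, n₄, f1, f2, f3, f4, d12, d13, d14, d23, d24, d34, hadj⟩ := lnk V T t n₁ ht hn₁
  have hs13 : s n₃ = - s n₁ := hs.2 _ _ _ _ f2 (T.cyc (T.cyc f1))
  have hs24 : s n₄ = - s n₂ := hs.2 _ _ _ _ f3 (T.cyc (T.cyc f2))
  have hsum : ∑ v, (if T.Adj t v ∧ T.deg v ≠ 4 then s v else 0) =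
      (if T.deg n₁ ≠ 4 then s n₁ else 0) + (if T.deg n₂ ≠ 4 then s n₂ else 0) +
      (if T.deg n₃ ≠ 4 then s n₃ else 0) + (if T.deg n₄ ≠ 4 then s n₄ else 0) := by
    have h1 : ∑ v, (if T.Adj t v ∧ T.deg v ≠ 4 then s v else 0) =
        ∑ v ∈ ({n₁, n₂, n₃, n₄} : Finset V), (if T.deg v ≠ 4 then s v else 0) := by
      rw [← Finset.sum_filter, ← Finset.sum_filter]
      refine Finset.sum_congr ?_ fun _ _ => rfl
      ext v
      simp only [Finset.mem_filter, Finset.mem_univ, true_and, Finset.mem_insert,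
        Finset.mem_singleton, hadj]
    rw [h1, Finset.sum_insert, Finset.sum_insert, Finset.sum_insert, Finset.sum_singleton]
    · ring
    · simp [d34]
    · simp [d23, d24]
    · simp [d12, d13, d14]
  rw [hsum, hs13, hs24]
  have e1 := hs.1 n₁
  have e2 := hs.1 n₂
  have b1 : |s n₁| ≤ 1 := by rcases e1 with h | h <;> rw [h] <;> simp
  have b2 : |s n₂| ≤ 1 := by rcases e2 with h | h <;> rw [h] <;> simp
  rw [abs_le] at b1 b2
  by_cases hP : ∃ u w, T.deg u ≠ 4 ∧ T.deg w ≠ 4 ∧ T.f t u w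
  · rw [if_pos hP, abs_le]
    split_ifs <;> constructor <;> linarith [b1.1, b1.2, b2.1, b2.2]
  · rw [if_neg hP]
    have c12 : T.deg n₁ = 4 ∨ T.deg n₂ = 4 := by
      by_contra hc
      push Not at hc
      exact hP ⟨_, _, hc.1, hc.2, f1⟩
    have c23 : T.deg n₂ = 4 ∨ T.deg n₃ = 4 := by
      by_contra hc
      push Not at hc
      exact hP ⟨_, _, hc.1, hc.2, f2⟩
    have c34 : T.deg n₃ = 4 ∨ T.deg n₄ = 4 := by
      by_contra hc
      push Not at hc
      exact hP ⟨_, _, hc.1, hc.2, f3⟩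
    have c41 : T.deg n₄ = 4 ∨ T.deg n₁ = 4 := by
      by_contra hc
      push Not at hc
      exact hP ⟨_, _, hc.1, hc.2, f4⟩
    have o1 : T.deg n₂ = 4 → T.deg n₃ = 4 → T.deg n₄ = 4 → T.deg n₁ = 4 :=
      oct V T t n₁ n₂ n₃ n₄ ht f1 f2 f3 f4
    have o2 : T.deg n₃ = 4 → T.deg n₄ = 4 → T.deg n₁ = 4 → T.deg n₂ = 4 :=
      oct V T t n₂ n₃ n₄ n₁ ht f2 f3 f4 f1
    have o3 : T.deg n₄ = 4 → T.deg n₁ = 4 → T.deg n₂ = 4 → T.deg n₃ = 4 :=
      oct V T t n₃ n₄ n₁ n₂ ht f3 f4 f1 f2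
    have o4 : T.deg n₁ = 4 → T.deg n₂ = 4 → T.deg n₃ = 4 → T.deg n₄ = 4 :=
      oct V T t n₄ n₁ n₂ n₃ ht f4 f1 f2 f3
    by_cases h1 : T.deg n₁ = 4 <;> by_cases h2 : T.deg n₂ = 4 <;> by_cases h3 : T.deg n₃ = 4 <;>
      by_cases h4 : T.deg n₄ = 4 <;> simp_all

open Classical in
theorem bnd (lnk : LnkStmt) (oct : OctStmt) : BndStmt := by
  intro V _ T s hs
  set A : Finset V := Finset.univ.filter fun v => T.deg v ≠ 4 with hA
  have hAcard : Nat.card {v // T.deg v ≠ 4} = A.card := by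
    rw [Nat.card_eq_fintype_card, Fintype.card_subtype]
  rw [hAcard]
  -- pairs of large vertices
  set D : Finset (V × V) := (A ×ˢ A).filter fun p => T.Adj p.1 p.2 with hD
  have hDcard : D.card ≤ A.card * (A.card - 1) := by
    have h1 : D ⊆ A.offDiag := by
      intro p hp
      rw [hD, Finset.mem_filter, Finset.mem_product] at hp
      rw [Finset.mem_offDiag]
      exact ⟨hp.1.1, hp.1.2, T.adj_ne hp.2⟩
    have h2 := Finset.card_le_card h1
    rw [Finset.offDiag_card] at h2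
    rwa [Nat.mul_sub, Nat.mul_one]
  have habs : ∀ v, |s v| = 1 := by
    intro v
    rcases hs.1 v with h | h <;> rw [h] <;> simp
  -- degree as a sum
  have hdeg : ∀ v, (T.deg v : ℤ) = ∑ u, (if T.Adj v u then 1 else 0) := by
    intro v
    unfold Tri.deg
    rw [Nat.card_eq_fintype_card, Fintype.card_subtype, Finset.sum_boole]
  -- splitting
  have hsplit : ∑ v, (if T.deg v ≠ 4 then s v * (T.deg v : ℤ) else 0) =
      ∑ p ∈ D, s p.1 + ∑ t, (if T.deg t = 4 then
        ∑ v, (if T.Adj t v ∧ T.deg v ≠ 4 then s v else 0) else 0) := by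
    have h1 : ∀ v, (if T.deg v ≠ 4 then s v * (T.deg v : ℤ) else 0) =
        ∑ u, (if T.deg v ≠ 4 ∧ T.Adj v u then s v else 0) := by
      intro v
      by_cases h : T.deg v ≠ 4
      · rw [if_pos h, hdeg v, Finset.mul_sum]
        refine Finset.sum_congr rfl fun u _ => ?_
        by_cases h' : T.Adj v u
        · rw [if_pos h', if_pos ⟨h, h'⟩, mul_one]
        · rw [if_neg h', if_neg (fun h'' => h' h''.2), mul_zero]
      · rw [if_neg h]
        symm
        refine Finset.sum_eq_zero fun u _ => ?_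
        rw [if_neg (fun h'' => h h''.1)]
    have h2 : ∑ p ∈ D, s p.1 = ∑ v, ∑ u,
        (if (T.deg v ≠ 4 ∧ T.Adj v u) ∧ T.deg u ≠ 4 then s v else 0) := by
      rw [← Finset.sum_product', ← Finset.sum_filter]
      refine Finset.sum_congr ?_ fun _ _ => rfl
      ext p
      simp only [hD, hA, Finset.mem_filter, Finset.mem_product, Finset.mem_univ, true_and]
      tauto
    have h3 : ∑ t, (if T.deg t = 4 then
        ∑ v, (if T.Adj t v ∧ T.deg v ≠ 4 then s v else 0) else 0) =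
        ∑ v, ∑ t, (if (T.deg v ≠ 4 ∧ T.Adj v t) ∧ T.deg t = 4 then s v else 0) := by
      rw [Finset.sum_comm]
      refine Finset.sum_congr rfl fun t _ => ?_
      by_cases h : T.deg t = 4
      · rw [if_pos h]
        refine Finset.sum_congr rfl fun v _ => ?_
        have hiff : (T.Adj t v ∧ T.deg v ≠ 4) ↔ ((T.deg v ≠ 4 ∧ T.Adj v t) ∧ T.deg t = 4) :=
          ⟨fun h' => ⟨⟨h'.2, T.adj_symm h'.1⟩, h⟩, fun h' => ⟨T.adj_symm h'.1.2, h'.1.1⟩⟩
        simp only [hiff]
      · rw [if_neg h]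
        symm
        refine Finset.sum_eq_zero fun v _ => ?_
        rw [if_neg (fun h' => h h'.2)]
    rw [h2, h3, ← Finset.sum_add_distrib]
    refine Finset.sum_congr rfl fun v _ => ?_
    rw [h1 v, ← Finset.sum_add_distrib]
    refine Finset.sum_congr rfl fun u _ => ?_
    by_cases h : T.deg v ≠ 4 ∧ T.Adj v u
    · by_cases h' : T.deg u = 4
      · rw [if_pos h, if_neg (fun h'' => h''.2 h'), if_pos ⟨h, h'⟩, zero_add]
      · rw [if_pos h, if_pos ⟨h, h'⟩, if_neg (fun h'' => h' h''.2), add_zero]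
    · rw [if_neg h, if_neg (fun h'' => h h''.1), if_neg (fun h'' => h h''.1), add_zero]
  -- the two parts
  have hfirst : |∑ p ∈ D, s p.1| ≤ D.card := by
    calc |∑ p ∈ D, s p.1| ≤ ∑ p ∈ D, |s p.1| := Finset.abs_sum_le_sum_abs _ _
      _ = D.card := by
        rw [Finset.sum_congr rfl fun p _ => habs p.1, Finset.sum_const, nsmul_eq_mul, mul_one]
  set G : Finset V := Finset.univ.filter fun t =>
    ∃ u w, T.deg u ≠ 4 ∧ T.deg w ≠ 4 ∧ T.f t u w with hG
  have hGcard : G.card ≤ D.card := by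
    have hch : ∀ t ∈ G, ∃ p ∈ D, T.f t p.1 p.2 := by
      intro t ht
      rw [hG, Finset.mem_filter] at ht
      obtain ⟨-, u, w, hu, hw, hf⟩ := ht
      refine ⟨(u, w), ?_, hf⟩
      rw [hD, Finset.mem_filter, Finset.mem_product, hA, Finset.mem_filter, Finset.mem_filter]
      exact ⟨⟨⟨Finset.mem_univ _, hu⟩, Finset.mem_univ _, hw⟩, _, T.cyc hf⟩
    choose! p hp hpf using hch
    refine Finset.card_le_card_of_injOn p hp ?_
    intro t ht t' ht' hpp
    have h1 := T.cyc (hpf t ht)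
    have h2 := T.cyc (hpf t' ht')
    rw [← hpp] at h2
    exact T.uniq h1 h2
  have hsecond : |∑ t, (if T.deg t = 4 then
        ∑ v, (if T.Adj t v ∧ T.deg v ≠ 4 then s v else 0) else 0)| ≤ 2 * (G.card : ℤ) := by
    calc |∑ t, (if T.deg t = 4 then
        ∑ v, (if T.Adj t v ∧ T.deg v ≠ 4 then s v else 0) else 0)| ≤
        ∑ t, |(if T.deg t = 4 then
        ∑ v, (if T.Adj t v ∧ T.deg v ≠ 4 then s v else 0) else 0)| :=
          Finset.abs_sum_le_sum_abs _ _
      _ ≤ ∑ t, (if ∃ u w, T.deg u ≠ 4 ∧ T.deg w ≠ 4 ∧ T.f t u w then (2 : ℤ) else 0) := by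
          refine Finset.sum_le_sum fun t _ => ?_
          by_cases h : T.deg t = 4
          · rw [if_pos h]
            exact local_bound lnk oct T s hs t h
          · rw [if_neg h, abs_zero]
            split_ifs
            · norm_num
            · exact le_refl _
      _ = 2 * (G.card : ℤ) := by
          rw [← Finset.sum_filter, Finset.sum_const, nsmul_eq_mul, mul_comm]
  rw [hsplit]
  have hfin : ((3 * (A.card * (A.card - 1)) : ℕ) : ℤ) = 3 * ((A.card * (A.card - 1) : ℕ) : ℤ) := by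
    push_cast
    ring
  have h1 : (D.card : ℤ) ≤ ((A.card * (A.card - 1) : ℕ) : ℤ) := by exact_mod_cast hDcard
  have h2 : (G.card : ℤ) ≤ D.card := by exact_mod_cast hGcard
  calc _ ≤ |∑ p ∈ D, s p.1| + |∑ t, (if T.deg t = 4 then
        ∑ v, (if T.Adj t v ∧ T.deg v ≠ 4 then s v else 0) else 0)| := abs_add_le _ _
    _ ≤ D.card + 2 * (G.card : ℤ) := add_le_add hfirst hsecond
    _ ≤ 3 * ((A.card * (A.card - 1) : ℕ) : ℤ) := by linarith

end Pool.Agent.PDN.H69
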