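import Pool.Agent.PDN.Stmts

/-!
# PDN: strips
-/

set_option autoImplicit false

namespace Pool.Agent.PDN.H69

theorem str (sub : SubStmt) : StrStmt := by
  classical
  intro V _ T u v a a' L huv hvu haa hconn
  have hau : a ≠ u := T.ne (T.cyc (T.cyc huv))
  have hav : a ≠ v := (T.ne (T.cyc huv)).symm
  have hau' : a' ≠ u := (T.ne (T.cyc hvu)).symm
  have hav' : a' ≠ v := T.ne (T.cyc (T.cyc hvu))
  have huv' : u ≠ v := T.ne huv
  suffices h : ∃ (W : Type) (_ : Fintype W) (T' : Tri W) (ι : V ↪ W),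
      (∀ x y z, T.f x y z → ¬ ((u = x ∨ u = y ∨ u = z) ∧ (v = x ∨ v = y ∨ v = z)) →
        T'.f (ι x) (ι y) (ι z)) ∧
      T'.deg (ι u) = T.deg u + L ∧ T'.deg (ι v) = T.deg v + L ∧
      T'.deg (ι a) = T.deg a + 1 ∧ T'.deg (ι a') = T.deg a' + 1 ∧
      (∀ x, x ≠ u → x ≠ v → x ≠ a → x ≠ a' → T'.deg (ι x) = T.deg x) ∧
      (∀ w, w ∉ Set.range ι → T'.deg w = 4) ∧
      Nat.card W = Nat.card V + (L + 1) ∧ T'.graph.Connected ∧
      ∃ b, b ∉ Set.range ι ∧ T'.f b (ι a') (ι v) ∧ T'.f (ι a') b (ι u) by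
    obtain ⟨W, hW, T', ι, h1, h2, h3, h4, h5, h6, h7, h8, h9, -⟩ := h
    exact ⟨W, hW, T', ι, h1, h2, h3, h4, h5, h6, h7, h8, h9⟩
  induction L with
  | zero =>
    obtain ⟨T', h1, h2, h3, h4, h5, h6, h7, h8, h9, h10⟩ := sub V T u v a a' huv hvu haa
    refine ⟨Option V, inferInstance, T', Function.Embedding.some, h1, ?_, ?_, h7, h8, ?_, ?_, ?_,
      h10 hconn, none, ?_, ?_, ?_⟩
    · rw [Nat.add_zero]
      exact h6 u hau.symm hau'.symm
    · rw [Nat.add_zero]
      exact h6 v hav.symm hav'.symm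
    · intro x _ _ hx hx'
      exact h6 x hx hx'
    · intro w hw
      rcases w with _ | w
      · exact h9
      · exact absurd ⟨w, rfl⟩ hw
    · rw [Nat.card_eq_fintype_card, Nat.card_eq_fintype_card, Fintype.card_option]
    · rintro ⟨x, hx⟩
      exact Option.some_ne_none x hx
    · exact T'.cyc h4
    · exact T'.cyc (T'.cyc h5)
  | succ L ih =>
    obtain ⟨W, hW, T', ι, h1, h2, h3, h4, h5, h6, h7, h8, h9, b, hb, hb1, hb2⟩ := ih
    have hne : ι v ≠ ι u := fun h => huv' (ι.injective h).symm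
    have hbr : ∀ x, b ≠ ι x := fun x hx => hb ⟨x, hx.symm⟩
    obtain ⟨T'', g1, g2, g3, g4, g5, g6, g7, g8, g9, g10⟩ :=
      sub W T' b (ι a') (ι v) (ι u) hb1 hb2 hne
    refine ⟨Option W, inferInstance, T'', ι.trans Function.Embedding.some, ?_, ?_, ?_, ?_, ?_, ?_,
      ?_, ?_, g10 h9, none, ?_, g3, g4⟩
    · intro x y z hf hn
      refine g1 _ _ _ (h1 x y z hf hn) ?_
      rintro ⟨h | h | h, -⟩
      · exact hbr x h
      · exact hbr y h
      · exact hbr z h
    · change T''.deg (some (ι u)) = _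
      rw [g8, h2, Nat.add_assoc]
    · change T''.deg (some (ι v)) = _
      rw [g7, h3, Nat.add_assoc]
    · change T''.deg (some (ι a)) = _
      rw [g6 _ (fun h => hav (ι.injective h)) (fun h => hau (ι.injective h)), h4]
    · change T''.deg (some (ι a')) = _
      rw [g6 _ (fun h => hav' (ι.injective h)) (fun h => hau' (ι.injective h)), h5]
    · intro x hxu hxv hxa hxa'
      change T''.deg (some (ι x)) = _
      rw [g6 _ (fun h => hxv (ι.injective h)) (fun h => hxu (ι.injective h)), h6 x hxu hxv hxa hxa']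
    · intro w hw
      rcases w with _ | w
      · exact g9
      · have hw' : w ∉ Set.range ι := by
          rintro ⟨x, rfl⟩
          exact hw ⟨x, rfl⟩
        rw [g6 w (fun h => hw' ⟨v, h.symm⟩) (fun h => hw' ⟨u, h.symm⟩)]
        exact h7 w hw'
    · rw [Nat.card_eq_fintype_card, Fintype.card_option, ← Nat.card_eq_fintype_card, h8]
      omega
    · rintro ⟨x, hx⟩
      exact Option.some_ne_none _ hx

end Pool.Agent.PDN.H69
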